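/-
Project TGX (MP_12cf61_al): almost all transitive permutation groups have exponential graph growth.
Shared definitions. Paper: /team-store/MP_12cf61_al_paper24.md
-/
import Pool.Agent.Lib.MP_12cf61_al.Defs

namespace Pool.Agent.Lib.TGX

open Equiv Filter Pool.Agent.Lib.TG12

/-- the transitive subgroups of the symmetric group on `Ω` -/
def Tr (Ω : Type) : Set (Subgroup (Perm Ω)) := {L | ∀ x y : Ω, ∃ g ∈ L, g x = y}

/-- number of permutation isomorphism classes of transitive groups of degree at most `n` -/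
noncomputable def permN (n : ℕ) : ℕ := ∑ d ∈ Finset.Icc 1 n, numClasses (Tr (Fin d))

/-- number of those classes whose groups have exponential graph growth -/
noncomputable def expN (n : ℕ) : ℕ :=
  ∑ d ∈ Finset.Icc 1 n, numClasses {L ∈ Tr (Fin d) | HasExpGrowth L}

/-- `X` is a subgroup of `L` normalised by `L` -/
def Nm {G : Type} [Group G] (L X : Subgroup G) : Prop :=
  X ≤ L ∧ ∀ g ∈ L, ∀ x ∈ X, g * x * g⁻¹ ∈ X

/-- property (P): every normal subgroup of `L` acts faithfully on each of its orbits -/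
def PP {Ω : Type} (L : Subgroup (Perm Ω)) : Prop :=
  ∀ X : Subgroup (Perm Ω), Nm L X → ∀ ω : Ω, ∀ a ∈ X, (∀ x ∈ X, a (x ω) = x ω) → a = 1

/-- `H` is generated by its subgroup `K` and at most `d` further elements -/
def Gen {G : Type} [Group G] (K H : Subgroup G) (d : ℕ) : Prop :=
  ∃ t : Finset G, t.card ≤ d ∧ K ⊔ Subgroup.closure (t : Set G) = H

/-- logarithm: `n < 2 ^ lg n` -/
def lg (n : ℕ) : ℕ := Nat.log 2 n + 1

theorem lt_lg (n : ℕ) : n < 2 ^ lg n := Nat.lt_pow_succ_log_self (by norm_num) n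

theorem lg_pos (n : ℕ) : 1 ≤ lg n := Nat.le_add_left 1 _

theorem lg_mono {a b : ℕ} (h : a ≤ b) : lg a ≤ lg b :=
  Nat.add_le_add_right (Nat.log_mono_right h) 1

/-- bound for the order of primitive groups of degree `n` -/
def bp (C n : ℕ) : ℕ := C * (Nat.sqrt n + 1) * lg n ^ 8

theorem bp_mono (C : ℕ) {a b : ℕ} (h : a ≤ b) : bp C a ≤ bp C b := by
  unfold bp
  have h1 := Nat.sqrt_le_sqrt h
  have h2 := lg_mono h
  gcongr

/-- primitive permutation groups (of any degree): transitive, only trivial invariant equivalences -/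
def Prim {α : Type} (G : Subgroup (Perm α)) : Prop :=
  (∀ x y : α, ∃ g ∈ G, g x = y) ∧
  ∀ r : Setoid α, (∀ g ∈ G, ∀ x y, r x y → r (g x) (g y)) → (∀ x y, r x y → x = y) ∨ ∀ x y, r x y

/-- doubly transitive permutation groups -/
def Two {α : Type} (G : Subgroup (Perm α)) : Prop :=
  ∀ x y x' y' : α, x ≠ y → x' ≠ y' → ∃ g ∈ G, g x = x' ∧ g y = y'

/-- primitive groups not containing the alternating group have order at most `2 ^ bp C n` -/
def PrimBound (C : ℕ) : Prop :=
  ∀ (n : ℕ) (G : Subgroup (Perm (Fin n))), Prim G → alternatingGroup (Fin n) ≤ G ∨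
    Nat.card G ≤ 2 ^ bp C n

/-- a family of pairwise commuting nonabelian subgroups of `L`, invariant under conjugation -/
structure CFam {G : Type} [Group G] (L : Subgroup G) (F : Finset (Subgroup G)) : Prop where
  le : ∀ X ∈ F, X ≤ L
  conj : ∀ g ∈ L, ∀ X ∈ F, X.map (MulAut.conj g).toMonoidHom ∈ F
  comm : ∀ X ∈ F, ∀ Y ∈ F, X ≠ Y → ∀ x ∈ X, ∀ y ∈ Y, x * y = y * x
  nab : ∀ X ∈ F, ∃ x ∈ X, ∃ y ∈ X, x * y ≠ y * x

/-- the hypotheses on the central subgroup `A` of the normal subgroup `D` of `L` (paper 3.2) -/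
structure AD {G : Type} [Group G] (L A D : Subgroup G) : Prop where
  nA : Nm L A
  nD : Nm L D
  le : A ≤ D
  cen : ∀ a ∈ A, ∀ d ∈ D, a * d = d * a
  max : ∀ M, Nm L M → M ≤ D → (∀ x ∈ M, ∀ y ∈ M, x * y * x⁻¹ * y⁻¹ ∈ A) → M ≤ A

/-- extremal families in `D` (paper 3.3): largest number of members, then smallest total order -/
def Ext {G : Type} [Group G] (L D : Subgroup G) (F : Finset (Subgroup G)) : Prop :=
  CFam L F ∧ (∀ X ∈ F, X ≤ D) ∧ ∀ F' : Finset (Subgroup G), CFam L F' → (∀ X ∈ F', X ≤ D) →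
    F'.card < F.card ∨ (F'.card = F.card ∧ ∑ X ∈ F, Nat.card X ≤ ∑ X ∈ F', Nat.card X)

end Pool.Agent.Lib.TGX
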